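import Mathlib

set_option autoImplicit false

open SimpleGraph

namespace Pool.Agent.Results.MP_c3beeb_co.NoFiniteFamily

noncomputable section

open Classical in
/-- The letters `x` and `y` alternate in the word `w`: both occur, and after deleting all other
letters no two neighbouring letters are equal. -/
def Alternate {V : Type*} (w : List V) (x y : V) : Prop :=
  x ∈ w ∧ y ∈ w ∧ (w.filter (fun z => decide (z = x ∨ z = y))).IsChain (fun a b => a ≠ b)

/-- `G` is word-representable: some word containing every vertex has `G` as its alternating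
graph. -/
def Representable {V : Type*} (G : SimpleGraph V) : Prop :=
  ∃ w : List V, (∀ v, v ∈ w) ∧ ∀ x y, x ≠ y → (G.Adj x y ↔ Alternate w x y)

section words

variable {V : Type*}

open Classical in
def Q (w : List V) (x y : V) : Prop :=
  ∀ t, (w.take t).count y ≤ (w.take t).count x ∧ (w.take t).count x ≤ (w.take t).count y + 1

open Classical in
def fil (x y : V) (w : List V) : List V := w.filter (fun z => decide (z = x ∨ z = y))

open Classical in
lemma Q_nil (x y : V) : Q ([] : List V) x y := by
  intro t; simp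

open Classical in
lemma Q_cons_other (x y z : V) (w : List V) (hx : z ≠ x) (hy : z ≠ y) :
    Q (z :: w) x y ↔ Q w x y := by
  unfold Q
  constructor
  · intro h t
    have := h (t + 1)
    simpa [List.take_succ_cons, List.count_cons_of_ne hx, List.count_cons_of_ne hy] using this
  · intro h t
    cases t with
    | zero => simp
    | succ t =>
      have := h t
      simpa [List.take_succ_cons, List.count_cons_of_ne hx, List.count_cons_of_ne hy] using this

open Classical in
lemma Q_cons_self (x y : V) (w : List V) (hxy : x ≠ y) :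
    Q (x :: w) x y ↔ Q w y x := by
  unfold Q
  constructor
  · intro h t
    have := h (t + 1)
    rw [List.take_succ_cons, List.count_cons_of_ne hxy, List.count_cons_self] at this
    omega
  · intro h t
    cases t with
    | zero => simp
    | succ t =>
      have := h t
      rw [List.take_succ_cons, List.count_cons_of_ne hxy, List.count_cons_self]
      omega

open Classical in
lemma Q_cons_false (x y : V) (w : List V) (hxy : x ≠ y) :
    ¬ Q (y :: w) x y := by
  intro h
  have := h 1
  simp [hxy.symm] at this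

open Classical in
lemma Q_iff (x y : V) (hxy : x ≠ y) (w : List V) :
    (Q w x y ↔ (fil x y w).IsChain (fun a b => a ≠ b) ∧ ∀ z ∈ (fil x y w).head?, z = x) ∧
    (Q w y x ↔ (fil x y w).IsChain (fun a b => a ≠ b) ∧ ∀ z ∈ (fil x y w).head?, z = y) := by
  induction w with
  | nil => simp [fil, Q_nil]
  | cons z w ih =>
    by_cases hx : z = x
    · subst hx
      have hf : fil z y (z :: w) = z :: fil z y w := by simp [fil]
      rw [hf]
      constructor
      · rw [Q_cons_self _ _ _ hxy, ih.2, List.isChain_cons]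
        simp only [List.head?_cons, Option.mem_def, Option.some.injEq]
        constructor
        · rintro ⟨h1, h2⟩
          refine ⟨⟨?_, h1⟩, fun a ha => ha.symm⟩
          intro a ha
          rw [h2 a ha]
          exact hxy
        · rintro ⟨⟨h1, h2⟩, h3⟩
          refine ⟨h2, ?_⟩
          intro a ha
          have h4 := h1 a ha
          have h5 : a ∈ fil z y w := List.mem_of_mem_head? ha
          simp only [fil, List.mem_filter, decide_eq_true_eq] at h5
          rcases h5.2 with h | h
          · exact absurd h.symm h4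
          · exact h
      · constructor
        · intro h
          exact absurd h (Q_cons_false _ _ _ hxy.symm)
        · rintro ⟨_, h⟩
          exact absurd (h z (by simp)) hxy
    · by_cases hy : z = y
      · subst hy
        have hf : fil x z (z :: w) = z :: fil x z w := by simp [fil]
        rw [hf]
        constructor
        · constructor
          · intro h
            exact absurd h (Q_cons_false _ _ _ hxy)
          · rintro ⟨_, h⟩
            exact absurd (h z (by simp)).symm hxy
        · rw [Q_cons_self _ _ _ hxy.symm, ih.1, List.isChain_cons]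
          simp only [List.head?_cons, Option.mem_def, Option.some.injEq]
          constructor
          · rintro ⟨h1, h2⟩
            refine ⟨⟨?_, h1⟩, fun a ha => ha.symm⟩
            intro a ha
            rw [h2 a ha]
            exact hxy.symm
          · rintro ⟨⟨h1, h2⟩, h3⟩
            refine ⟨h2, ?_⟩
            intro a ha
            have h4 := h1 a ha
            have h5 : a ∈ fil x z w := List.mem_of_mem_head? ha
            simp only [fil, List.mem_filter, decide_eq_true_eq] at h5
            rcases h5.2 with h | h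
            · exact h
            · exact absurd h.symm h4
      · have hf : fil x y (z :: w) = fil x y w := by
          simp [fil, hx, hy]
        rw [hf, Q_cons_other _ _ _ _ hx hy, Q_cons_other _ _ _ _ hy hx]
        exact ih

lemma chain_iff (x y : V) (hxy : x ≠ y) (w : List V) :
    (fil x y w).IsChain (fun a b => a ≠ b) ↔ Q w x y ∨ Q w y x := by
  rw [(Q_iff x y hxy w).1, (Q_iff x y hxy w).2]
  constructor
  · intro h
    cases hh : (fil x y w).head? with
    | none => left; exact ⟨h, by simp⟩
    | some a =>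
      have h5 : a ∈ fil x y w := List.mem_of_mem_head? hh
      simp only [fil, List.mem_filter, decide_eq_true_eq] at h5
      rcases h5.2 with h6 | h6
      · left; refine ⟨h, ?_⟩
        intro z hz
        simp only [Option.mem_def, Option.some.injEq] at hz
        rw [← hz, h6]
      · right; refine ⟨h, ?_⟩
        intro z hz
        simp only [Option.mem_def, Option.some.injEq] at hz
        rw [← hz, h6]
  · rintro (h | h)
    · exact h.1
    · exact h.1

end words

structure Sys {V : Type*} (A P : V → V → Prop) : Prop where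
  symm : ∀ x y, A x y → A y x
  irr : ∀ x, ¬ A x x
  rfl' : ∀ x, P x x
  tr : ∀ x y z, P x y → P y z → P x z
  anti : ∀ x y, P x y → P y x → x = y
  cmp : ∀ x y, A x y → P x y ∨ P y x
  cvx : ∀ u x y w, A u w → P u x → P x y → P y w → x = y ∨ A x y

open Classical in
lemma sys_of_rep {V : Type*} (G : SimpleGraph V) (h : Representable G) :
    ∃ P : V → V → Prop, Sys G.Adj P := by
  obtain ⟨w, hw, hG⟩ := h
  have key : ∀ x y, x ≠ y → (G.Adj x y ↔ Q w x y ∨ Q w y x) := by
    intro x y hxy
    rw [hG x y hxy, ← chain_iff x y hxy w]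
    unfold Alternate fil
    constructor
    · intro h; exact h.2.2
    · intro h; exact ⟨hw x, hw y, h⟩
  refine ⟨fun x y => ∀ t, (w.take t).count y ≤ (w.take t).count x, ?_⟩
  have anti : ∀ x y, (∀ t, (w.take t).count y ≤ (w.take t).count x) →
      (∀ t, (w.take t).count x ≤ (w.take t).count y) → x = y := by
    intro x y h1 h2
    by_contra hxy
    have h3 : ∀ t, (w.take t).count x = (w.take t).count y := fun t => le_antisymm (h2 t) (h1 t)
    have hx := hw x
    obtain ⟨i, hi, hix⟩ := List.getElem_of_mem hx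
    have h4 := h3 (i + 1)
    have h5 := h3 i
    rw [List.take_succ_eq_append_getElem hi, List.count_append, List.count_append, hix] at h4
    simp [h5, hxy] at h4
  refine ⟨fun x y h => h.symm, fun x => G.loopless.irrefl x, fun x t => le_rfl,
    fun x y z h1 h2 t => (h2 t).trans (h1 t), anti, ?_, ?_⟩
  · intro x y h
    rcases (key x y h.ne).1 h with h | h
    · left; exact fun t => (h t).1
    · right; exact fun t => (h t).1
  · intro u x y v huv hux hxy hyv
    by_cases hne : x = y
    · left; exact hne
    right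
    rw [key x y hne]
    left
    intro t
    refine ⟨hxy t, ?_⟩
    have h1 : (w.take t).count u ≤ (w.take t).count v + 1 := by
      rcases (key u v huv.ne).1 huv with h | h
      · exact (h t).2
      · have := (h t).1
        omega
    have := hux t
    have := hyv t
    omega

structure Wheel {V : Type*} (n : ℤ) (A : V → V → Prop) (s p : ℤ → V) : Prop where
  ss : ∀ i j, ¬ n ∣ i - j → A (s i) (s j)
  sseq : ∀ i j, n ∣ i - j → s i = s j
  ps : ∀ i j, A (p i) (s j) ↔ n ∣ i - j ∨ n ∣ i + 1 - j
  psne : ∀ i j, p i ≠ s j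
  pp1 : ∀ i, A (p i) (p (i + 1))
  ppeq : ∀ i j, n ∣ i - j → p i = p j
  pp : ∀ i j, ¬ n ∣ i - j - 1 → ¬ n ∣ i - j + 1 → ¬ A (p i) (p j)
  pne : ∀ i j, ¬ n ∣ i - j → p i ≠ p j

lemma nd {n k : ℤ} (h0 : k ≠ 0) (h1 : -n < k) (h2 : k < n) : ¬ n ∣ k := by
  rintro ⟨m, rfl⟩
  have hn : 0 < n := by
    rcases lt_trichotomy n 0 with h | h | h
    · linarith
    · subst h; simp at h0
    · exact h
  have hm : m ≠ 0 := by rintro rfl; simp at h0
  rcases lt_or_gt_of_ne hm with h | h
  · nlinarith
  · nlinarith


section core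

variable {V : Type*} {A P : V → V → Prop} {s p : ℤ → V} {n : ℤ}

/-- A rim letter between two spokes pins them to be the two extreme spokes. -/
lemma typeM_ext (S : Sys A P) (W : Wheel n A s p) (i h l : ℤ)
    (hhl : (h = i ∧ l = i + 1) ∨ (h = i + 1 ∧ l = i)) (h1 : P (s h) (p i)) (h2 : P (p i) (s l))
    (k : ℤ) (hk1 : ¬ n ∣ i - k) (hk2 : ¬ n ∣ i + 1 - k) :
    P (s h) (s k) ∧ P (s k) (s l) := by
  have hps : ¬ A (p i) (s k) := by
    rw [W.ps]; push Not; exact ⟨hk1, hk2⟩
  have hkh : ¬ n ∣ k - h := by
    intro hd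
    rcases hhl with ⟨rfl, rfl⟩ | ⟨rfl, rfl⟩
    · exact hk1 (dvd_sub_comm.1 hd)
    · exact hk2 (dvd_sub_comm.1 hd)
  have hkl : ¬ n ∣ k - l := by
    intro hd
    rcases hhl with ⟨rfl, rfl⟩ | ⟨rfl, rfl⟩
    · exact hk2 (dvd_sub_comm.1 hd)
    · exact hk1 (dvd_sub_comm.1 hd)
  constructor
  · rcases S.cmp _ _ (W.ss k h hkh) with h3 | h3
    · exfalso
      rcases S.cvx (s k) (s k) (p i) (s l) (W.ss k l hkl) (S.rfl' _) (S.tr _ _ _ h3 h1) h2
        with h4 | h4
      · exact W.psne _ _ h4.symm
      · exact hps (S.symm _ _ h4)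
    · exact h3
  · rcases S.cmp _ _ (W.ss k l hkl) with h3 | h3
    · exact h3
    · exfalso
      have := W.ss k h hkh
      rcases S.cvx (s h) (p i) (s k) (s k) (S.symm _ _ this) h1 (S.tr _ _ _ h2 h3) (S.rfl' _)
        with h4 | h4
      · exact W.psne _ _ h4
      · exact hps h4

/-- If the rim letter is not between its two spokes then the two spokes are consecutive. -/
lemma consec (S : Sys A P) (W : Wheel n A s p) (i h l : ℤ)
    (hhl : (h = i ∧ l = i + 1) ∨ (h = i + 1 ∧ l = i)) (h0 : P (s h) (s l))
    (hM : ¬ (P (s h) (p i) ∧ P (p i) (s l)))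
    (k : ℤ) (hk1 : ¬ n ∣ i - k) (hk2 : ¬ n ∣ i + 1 - k) :
    ¬ (P (s h) (s k) ∧ P (s k) (s l)) := by
  rintro ⟨h1, h2⟩
  have hps : ¬ A (p i) (s k) := by
    rw [W.ps]; push Not; exact ⟨hk1, hk2⟩
  have hah : A (p i) (s h) := by
    rw [W.ps]
    rcases hhl with ⟨rfl, rfl⟩ | ⟨rfl, rfl⟩
    · left; simp
    · right; simp
  have hal : A (p i) (s l) := by
    rw [W.ps]
    rcases hhl with ⟨rfl, rfl⟩ | ⟨rfl, rfl⟩
    · right; simp
    · left; simp
  rcases S.cmp _ _ hah with h3 | h3
  · -- p above h
    rcases S.cvx (p i) (p i) (s k) (s l) hal (S.rfl' _) (S.tr _ _ _ h3 h1) h2 with h4 | h4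
    · exact W.psne _ _ h4
    · exact hps h4
  · rcases S.cmp _ _ hal with h5 | h5
    · exact hM ⟨h3, h5⟩
    · rcases S.cvx (s h) (s k) (p i) (p i) (S.symm _ _ hah) h1 (S.tr _ _ _ h2 h5) (S.rfl' _)
        with h4 | h4
      · exact W.psne _ _ h4.symm
      · exact hps (S.symm _ _ h4)

/-- The spokes are arranged monotonically. -/
lemma spokes_mono (S : Sys A P) (W : Wheel n A s p) (hn : 4 ≤ n)
    (htop : ∀ j, P (s 0) (s j)) (hM : ¬ (P (s 0) (p 0) ∧ P (p 0) (s 1))) :
    ∀ i : ℕ, (i : ℤ) ≤ n - 2 → P (s i) (s (i + 1)) ∧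
      ¬ (P (s i) (p i) ∧ P (p i) (s (i + 1))) := by
  intro i
  induction i with
  | zero =>
    intro _
    refine ⟨by simpa using htop 1, by simpa using hM⟩
  | succ i ih =>
    intro hi
    push_cast at hi ⊢
    obtain ⟨ih1, ih2⟩ := ih (by omega)
    have c1 := consec S W i i (i + 1) (Or.inl ⟨rfl, rfl⟩) ih1 ih2
    have notM : ∀ h l : ℤ, ((h = (i:ℤ) + 1 ∧ l = (i:ℤ) + 1 + 1) ∨ (h = (i:ℤ) + 1 + 1 ∧ l = (i:ℤ) + 1)) →
        ¬ (P (s h) (p (i + 1)) ∧ P (p (i + 1)) (s l)) := by
      rintro h l hhl ⟨h1, h2⟩
      have := (typeM_ext S W (i + 1) h l hhl h1 h2 0 (nd (by omega) (by omega) (by omega))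
        (nd (by omega) (by omega) (by omega))).1
      have h3 := S.anti _ _ this (htop h)
      have h4 : ¬ n ∣ h - 0 := by
        rcases hhl with ⟨rfl, _⟩ | ⟨rfl, _⟩
        · exact nd (by omega) (by omega) (by omega)
        · exact nd (by omega) (by omega) (by omega)
      have h5 := W.ss h 0 h4
      rw [h3] at h5
      exact S.irr _ h5
    have hgoal : P (s (i + 1)) (s (i + 1 + 1)) := by
      have hc : ¬ n ∣ ((i:ℤ) + 1) - (i + 1 + 1) := nd (by omega) (by omega) (by omega)
      rcases S.cmp _ _ (W.ss _ _ hc) with h | h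
      · exact h
      exfalso
      have c2 := consec S W (i + 1) (i + 1 + 1) (i + 1) (Or.inr ⟨rfl, rfl⟩) h
        (notM _ _ (Or.inr ⟨rfl, rfl⟩)) i (nd (by omega) (by omega) (by omega))
        (nd (by omega) (by omega) (by omega))
      have c3 := c1 (i + 1 + 1) (nd (by omega) (by omega) (by omega))
        (nd (by omega) (by omega) (by omega))
      have hc2 : ¬ n ∣ (i:ℤ) - (i + 1 + 1) := nd (by omega) (by omega) (by omega)
      rcases S.cmp _ _ (W.ss _ _ hc2) with h6 | h6
      · exact c3 ⟨h6, h⟩
      · exact c2 ⟨h6, ih1⟩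
    exact ⟨hgoal, notM _ _ (Or.inl ⟨rfl, rfl⟩)⟩

lemma core (S : Sys A P) (W : Wheel n A s p) (hn : 4 ≤ n)
    (htop : ∀ j, P (s 0) (s j)) (hM : ¬ (P (s 0) (p 0) ∧ P (p 0) (s 1))) : False := by
  have mono := spokes_mono S W hn htop hM
  -- integer form
  have mono' : ∀ i : ℤ, 0 ≤ i → i ≤ n - 2 → P (s i) (s (i + 1)) ∧
      ¬ (P (s i) (p i) ∧ P (p i) (s (i + 1))) := by
    intro i h0 h1
    obtain ⟨k, rfl⟩ := Int.eq_ofNat_of_zero_le h0
    exact mono k h1
  -- chain of spokes
  have chain : ∀ d : ℕ, ∀ i : ℤ, 0 ≤ i → i + d ≤ n - 1 → P (s i) (s (i + d)) := by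
    intro d
    induction d with
    | zero => intro i _ _; simpa using S.rfl' _
    | succ d ih =>
      intro i h0 h1
      push_cast at h1 ⊢
      have h2 := ih i h0 (by omega)
      have h3 := (mono' (i + d) (by omega) (by omega)).1
      have := S.tr _ _ _ h2 h3
      rwa [add_assoc] at this
  have chain' : ∀ i j : ℤ, 0 ≤ i → i ≤ j → j ≤ n - 1 → P (s i) (s j) := by
    intro i j h0 h1 h2
    obtain ⟨k, hk⟩ := Int.eq_ofNat_of_zero_le (sub_nonneg.2 h1)
    have := chain k i h0 (by omega)
    have e : i + (k:ℤ) = j := by omega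
    rwa [e] at this
  -- types
  have types : ∀ i : ℤ, 0 ≤ i → i ≤ n - 2 → (P (s (i + 1)) (p i)) ∨ (P (p i) (s i)) := by
    intro i h0 h1
    obtain ⟨m1, m2⟩ := mono' i h0 h1
    have ha1 : A (p i) (s i) := by rw [W.ps]; left; simp
    have ha2 : A (p i) (s (i + 1)) := by rw [W.ps]; right; simp
    rcases S.cmp _ _ ha1 with h | h
    · right; exact h
    · rcases S.cmp _ _ ha2 with h' | h'
      · exact absurd ⟨h, h'⟩ m2
      · left; exact h'
  -- a forbidden-triple rule, in contrapositive form
  have nps : ∀ i j : ℤ, ¬ n ∣ i - j → ¬ n ∣ i + 1 - j → ¬ A (p i) (s j) := by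
    intro i j h1 h2
    rw [W.ps]; push Not; exact ⟨h1, h2⟩
  have s0n : s n = s 0 := W.sseq _ _ (by simp)
  -- last rim letter is between s 0 and s (n-1)
  have hlast : P (s 0) (p (n - 1)) ∧ P (p (n - 1)) (s (n - 1)) := by
    by_contra hcon
    have h0 : P (s (n - 1 + 1)) (s (n - 1)) := by
      rw [sub_add_cancel, s0n]; exact htop _
    have hcon' : ¬ (P (s (n - 1 + 1)) (p (n - 1)) ∧ P (p (n - 1)) (s (n - 1))) := by
      rw [sub_add_cancel, s0n]; exact hcon
    have := consec S W (n - 1) (n - 1 + 1) (n - 1) (Or.inr ⟨rfl, rfl⟩) h0 hcon' 1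
      (nd (by omega) (by omega) (by omega)) (nd (by omega) (by omega) (by omega))
    apply this
    rw [sub_add_cancel, s0n]
    exact ⟨htop 1, chain' 1 (n - 1) (by omega) (by omega) (by omega)⟩
  -- BB
  have BB : ∀ i : ℤ, 0 ≤ i → i + 1 ≤ n - 2 → P (p i) (s i) → P (p i) (p (i + 1)) := by
    intro i h0 h1 hB
    rcases S.cmp _ _ (W.pp1 i) with h | h
    · exact h
    exfalso
    have ha : A (p (i + 1)) (s (i + 1)) := by rw [W.ps]; left; simp
    rcases S.cvx (p (i + 1)) (p (i + 1)) (s i) (s (i + 1)) ha (S.rfl' _) (S.tr _ _ _ h hB)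
      (mono' i h0 (by omega)).1 with h4 | h4
    · exact W.psne _ _ h4
    · exact nps _ _ (nd (by omega) (by omega) (by omega)) (nd (by omega) (by omega) (by omega)) h4
  have AA : ∀ i : ℤ, 0 ≤ i → i + 1 ≤ n - 2 → P (s (i + 1 + 1)) (p (i + 1)) →
      P (p i) (p (i + 1)) := by
    intro i h0 h1 hA
    rcases S.cmp _ _ (W.pp1 i) with h | h
    · exact h
    exfalso
    have ha : A (p i) (s (i + 1)) := by rw [W.ps]; right; simp
    rcases S.cvx (s (i + 1)) (s (i + 1 + 1)) (p i) (p i) (S.symm _ _ ha)
      (mono' (i + 1) (by omega) (by omega)).1 (S.tr _ _ _ hA h) (S.rfl' _) with h4 | h4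
    · exact W.psne _ _ h4.symm
    · exact nps _ _ (nd (by omega) (by omega) (by omega)) (nd (by omega) (by omega) (by omega))
        (S.symm _ _ h4)
  have BA : ∀ i : ℤ, 0 ≤ i → i + 1 ≤ n - 2 → P (p i) (s i) → P (s (i + 1 + 1)) (p (i + 1)) →
      False := by
    intro i h0 h1 hB hA
    have h2 : P (p i) (s (i + 1 + 1)) := S.tr _ _ _ hB (chain' i (i + 1 + 1) h0 (by omega)
      (by omega))
    rcases S.cvx (p i) (p i) (s (i + 1 + 1)) (p (i + 1)) (W.pp1 i) (S.rfl' _) h2 hA with h4 | h4
    · exact W.psne _ _ h4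
    · exact nps _ _ (nd (by omega) (by omega) (by omega)) (nd (by omega) (by omega) (by omega)) h4
  have A0 : P (s (0 + 1)) (p 0) → P (p (n - 1)) (p 0) := by
    intro hA
    have hpa : A (p (n - 1)) (p 0) := by
      have := W.pp1 (n - 1)
      rw [sub_add_cancel] at this
      rwa [W.ppeq n 0 (by simp)] at this
    rcases S.cmp _ _ hpa with h | h
    · exact h
    exfalso
    have ha : A (p (n - 1)) (s 0) := by rw [W.ps]; right; simp
    rcases S.cvx (s 0) (s 1) (p (n - 1)) (p (n - 1)) (S.symm _ _ ha) (htop 1)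
      (S.tr _ _ _ (by simpa using hA) h) (S.rfl' _) with h4 | h4
    · exact W.psne _ _ h4.symm
    · exact nps _ _ (nd (by omega) (by omega) (by omega)) (nd (by omega) (by omega) (by omega))
        (S.symm _ _ h4)
  have Bn : P (p (n - 2)) (s (n - 2)) → P (p (n - 2)) (p (n - 1)) := by
    intro hB
    have hpa : A (p (n - 2)) (p (n - 1)) := by
      have := W.pp1 (n - 2)
      have e : n - 2 + 1 = n - 1 := by ring
      rwa [e] at this
    rcases S.cmp _ _ hpa with h | h
    · exact h
    exfalso
    have ha : A (p (n - 1)) (s (n - 1)) := by rw [W.ps]; left; simp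
    rcases S.cvx (p (n - 1)) (p (n - 1)) (s (n - 2)) (s (n - 1)) ha (S.rfl' _)
      (S.tr _ _ _ h hB) (chain' _ _ (by omega) (by omega) (by omega)) with h4 | h4
    · exact W.psne _ _ h4
    · exact nps _ _ (nd (by omega) (by omega) (by omega)) (nd (by omega) (by omega) (by omega)) h4
  -- (1) type A gives p (n-1) above
  have one : ∀ j : ℕ, (j : ℤ) ≤ n - 2 → P (s (j + 1)) (p j) → P (p (n - 1)) (p j) := by
    intro j
    induction j with
    | zero => intro _ h; exact A0 (by simpa using h)
    | succ j ih =>
      intro hj hA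
      push_cast at hj hA ⊢
      rcases types j (by omega) (by omega) with h | h
      · exact S.tr _ _ _ (ih (by omega) h) (AA j (by omega) (by omega) hA)
      · exact (BA j (by omega) (by omega) h hA).elim
  have two : ∀ d : ℕ, ∀ j : ℤ, 0 ≤ j → j + d = n - 2 → P (p j) (s j) → P (p j) (p (n - 1)) := by
    intro d
    induction d with
    | zero =>
      intro j h0 hj hB
      have : j = n - 2 := by simpa using hj
      subst this
      exact Bn hB
    | succ d ih =>
      intro j h0 hj hB
      push_cast at hj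
      rcases types (j + 1) (by omega) (by omega) with h | h
      · exact (BA j (by omega) (by omega) hB h).elim
      · exact S.tr _ _ _ (BB j (by omega) (by omega) hB) (ih (j + 1) (by omega) (by omega) h)
  have two' : ∀ j : ℤ, 0 ≤ j → j ≤ n - 2 → P (p j) (s j) → P (p j) (p (n - 1)) := by
    intro j h0 h1 hB
    obtain ⟨d, hd⟩ := Int.eq_ofNat_of_zero_le (sub_nonneg.2 h1)
    exact two d j h0 (by omega) hB
  have one' : ∀ j : ℤ, 0 ≤ j → j ≤ n - 2 → P (s (j + 1)) (p j) → P (p (n - 1)) (p j) := by
    intro j h0 h1 hA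
    obtain ⟨d, rfl⟩ := Int.eq_ofNat_of_zero_le h0
    exact one d h1 hA
  -- no switch from A to B
  have switch : ∀ j : ℤ, 0 ≤ j → j + 1 ≤ n - 2 → P (s (j + 1)) (p j) → P (p (j + 1)) (s (j + 1)) →
      False := by
    intro j h0 h1 hA hB
    have h2 := one' j h0 (by omega) hA
    have h3 := two' (j + 1) (by omega) h1 hB
    have hadj := S.symm _ _ (W.pp1 j)
    by_cases hj : j + 1 = n - 2
    · -- then j ≥ 1 and p (n-1), p j are not adjacent
      rcases S.cvx (p (j + 1)) (p (n - 1)) (p j) (p j) hadj h3 h2 (S.rfl' _) with h4 | h4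
      · exact W.pne _ _ (nd (by omega) (by omega) (by omega)) h4
      · exact W.pp _ _ (nd (by omega) (by omega) (by omega)) (nd (by omega) (by omega) (by omega)) h4
    · rcases S.cvx (p (j + 1)) (p (j + 1)) (p (n - 1)) (p j) hadj (S.rfl' _) h3 h2 with h4 | h4
      · exact W.pne _ _ (nd (by omega) (by omega) (by omega)) h4
      · exact W.pp _ _ (nd (by omega) (by omega) (by omega)) (nd (by omega) (by omega) (by omega)) h4
  rcases types 0 (by omega) (by omega) with hA | hB
  · -- all A
    have allA : ∀ j : ℕ, (j : ℤ) ≤ n - 2 → P (s (j + 1)) (p j) := by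
      intro j
      induction j with
      | zero => intro _; simpa using hA
      | succ j ih =>
        intro hj
        push_cast at hj ⊢
        rcases types (j + 1) (by omega) (by omega) with h | h
        · exact h
        · exact (switch j (by omega) (by omega) (ih (by omega)) h).elim
    have allA' : ∀ j : ℤ, 0 ≤ j → j ≤ n - 2 → P (s (j + 1)) (p j) := by
      intro j h0 h1
      obtain ⟨d, rfl⟩ := Int.eq_ofNat_of_zero_le h0
      exact allA d h1
    have h1 := one' (n - 3) (by omega) (by omega) (allA' _ (by omega) (by omega))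
    have h2 : P (p (n - 3)) (p (n - 2)) := by
      have := AA (n - 3) (by omega) (by omega) (by
        have := allA' (n - 3 + 1) (by omega) (by omega)
        exact this)
      have e : n - 3 + 1 = n - 2 := by ring
      rwa [e] at this
    have hadj : A (p (n - 1)) (p (n - 2)) := by
      have := W.pp1 (n - 2)
      have e : n - 2 + 1 = n - 1 := by ring
      rw [e] at this
      exact S.symm _ _ this
    rcases S.cvx (p (n - 1)) (p (n - 1)) (p (n - 3)) (p (n - 2)) hadj (S.rfl' _) h1 h2
      with h4 | h4
    · exact W.pne _ _ (nd (by omega) (by omega) (by omega)) h4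
    · exact W.pp _ _ (nd (by omega) (by omega) (by omega)) (nd (by omega) (by omega) (by omega)) h4
  · -- all B
    have allB : ∀ j : ℕ, (j : ℤ) ≤ n - 2 → P (p j) (s j) := by
      intro j
      induction j with
      | zero => intro _; simpa using hB
      | succ j ih =>
        intro hj
        push_cast at hj ⊢
        rcases types (j + 1) (by omega) (by omega) with h | h
        · exact (BA j (by omega) (by omega) (ih (by omega)) h).elim
        · exact h
    have h01 := BB 0 (by omega) (by omega) (by simpa using allB 0 (by omega))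
    have h12 := BB 1 (by omega) (by omega) (by simpa using allB 1 (by push_cast; omega))
    have h2 := two' 2 (by omega) (by omega) (by simpa using allB 2 (by push_cast; omega))
    have hadj : A (p 0) (p (n - 1)) := by
      have := W.pp1 (n - 1)
      rw [sub_add_cancel, W.ppeq n 0 (by simp)] at this
      exact S.symm _ _ this
    have h02 : P (p 0) (p 2) := S.tr _ _ _ (by simpa using h01) (by simpa using h12)
    rcases S.cvx (p 0) (p 0) (p 2) (p (n - 1)) hadj (S.rfl' _) h02 h2 with h4 | h4
    · exact W.pne _ _ (nd (by omega) (by omega) (by omega)) h4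
    · exact W.pp _ _ (nd (by omega) (by omega) (by omega)) (nd (by omega) (by omega) (by omega)) h4

end core


section wheelend

variable {V : Type*} {A P : V → V → Prop} {s p : ℤ → V} {n : ℤ}

lemma wheel_shift (W : Wheel n A s p) (c : ℤ) :
    Wheel n A (fun i => s (i + c)) (fun i => p (i + c)) := by
  refine ⟨?_, ?_, ?_, ?_, ?_, ?_, ?_, ?_⟩
  · intro i j h; exact W.ss _ _ (by simpa using h)
  · intro i j h; exact W.sseq _ _ (by simpa using h)
  · intro i j
    rw [W.ps]
    have e1 : i + c - (j + c) = i - j := by ring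
    have e2 : i + c + 1 - (j + c) = i + 1 - j := by ring
    rw [e1, e2]
  · intro i j; exact W.psne _ _
  · intro i
    have := W.pp1 (i + c)
    have e : i + c + 1 = i + 1 + c := by ring
    rwa [e] at this
  · intro i j h; exact W.ppeq _ _ (by simpa using h)
  · intro i j h1 h2
    apply W.pp
    · have e1 : i + c - (j + c) - 1 = i - j - 1 := by ring
      rwa [e1]
    · have e1 : i + c - (j + c) + 1 = i - j + 1 := by ring
      rwa [e1]
  · intro i j h; exact W.pne _ _ (by simpa using h)

lemma wheel_reflect (S : Sys A P) (W : Wheel n A s p) :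
    Wheel n A (fun i => s (-i)) (fun i => p (-i - 1)) := by
  refine ⟨?_, ?_, ?_, ?_, ?_, ?_, ?_, ?_⟩
  · intro i j h; apply W.ss
    have e : -i - -j = -(i - j) := by ring
    rwa [e, dvd_neg]
  · intro i j h; apply W.sseq
    have e : -i - -j = -(i - j) := by ring
    rwa [e, dvd_neg]
  · intro i j
    rw [W.ps]
    have e1 : -i - 1 - -j = -(i + 1 - j) := by ring
    have e2 : -i - 1 + 1 - -j = -(i - j) := by ring
    rw [e1, e2, dvd_neg, dvd_neg, or_comm]
  · intro i j; exact W.psne _ _
  · intro i
    have := W.pp1 (-(i + 1) - 1)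
    have e : -(i + 1) - 1 + 1 = -i - 1 := by ring
    rw [e] at this
    exact S.symm _ _ this
  · intro i j h; apply W.ppeq
    have e : -i - 1 - (-j - 1) = -(i - j) := by ring
    rwa [e, dvd_neg]
  · intro i j h1 h2
    apply W.pp
    · have e1 : -i - 1 - (-j - 1) - 1 = -(i - j + 1) := by ring
      rwa [e1, dvd_neg]
    · have e1 : -i - 1 - (-j - 1) + 1 = -(i - j - 1) := by ring
      rwa [e1, dvd_neg]
  · intro i j h; apply W.pne
    have e : -i - 1 - (-j - 1) = -(i - j) := by ring
    rwa [e, dvd_neg]

lemma exists_top (S : Sys A P) (W : Wheel n A s p) (hn : 0 < n) : ∃ c, ∀ j, P (s c) (s j) := by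
  have h : ∀ m : ℕ, ∃ c, ∀ j : ℕ, j < m → P (s c) (s j) := by
    intro m
    induction m with
    | zero => exact ⟨0, by intro j hj; omega⟩
    | succ m ih =>
      obtain ⟨c, hc⟩ := ih
      by_cases hd : n ∣ c - m
      · refine ⟨c, ?_⟩
        intro j hj
        rcases Nat.lt_succ_iff_lt_or_eq.1 hj with h | h
        · exact hc j h
        · subst h
          rw [W.sseq _ _ hd]; exact S.rfl' _
      · rcases S.cmp _ _ (W.ss _ _ hd) with h1 | h1
        · refine ⟨c, ?_⟩
          intro j hj
          rcases Nat.lt_succ_iff_lt_or_eq.1 hj with h | h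
          · exact hc j h
          · subst h; exact h1
        · refine ⟨m, ?_⟩
          intro j hj
          rcases Nat.lt_succ_iff_lt_or_eq.1 hj with h | h
          · exact S.tr _ _ _ h1 (hc j h)
          · subst h; exact S.rfl' _
  obtain ⟨c, hc⟩ := h n.toNat
  refine ⟨c, fun j => ?_⟩
  have h1 : s j = s (j % n) := W.sseq _ _ Int.dvd_self_sub_emod
  have h2 := Int.emod_nonneg j (ne_of_gt hn)
  have h3 := Int.emod_lt_of_pos j hn
  obtain ⟨k, hk⟩ := Int.eq_ofNat_of_zero_le h2
  rw [h1, hk]
  apply hc
  omega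

theorem no_wheel (S : Sys A P) (W : Wheel n A s p) (hn : 4 ≤ n) : False := by
  obtain ⟨c, hc⟩ := exists_top S W (by omega)
  have W1 := wheel_shift W c
  have htop : ∀ j, P ((fun i => s (i + c)) 0) ((fun i => s (i + c)) j) := by
    intro j
    simp only [zero_add]
    exact hc _
  by_cases hM : P ((fun i => s (i + c)) 0) ((fun i => p (i + c)) 0) ∧
      P ((fun i => p (i + c)) 0) ((fun i => s (i + c)) 1)
  · have W2 := wheel_reflect S W1
    refine core S W2 hn (fun j => htop _) ?_
    rintro ⟨h1, h2⟩
    have hb1 := (typeM_ext S W1 0 0 1 (Or.inl ⟨rfl, rfl⟩) hM.1 hM.2 (-1)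
      (nd (by omega) (by omega) (by omega)) (nd (by omega) (by omega) (by omega))).2
    have hb2 := (typeM_ext S W2 0 0 1 (Or.inl ⟨rfl, rfl⟩) h1 h2 (-1)
      (nd (by omega) (by omega) (by omega)) (nd (by omega) (by omega) (by omega))).2
    have h3 := S.anti _ _ hb1 hb2
    have h4 := W1.ss (-1) 1 (nd (by omega) (by omega) (by omega))
    rw [h3] at h4
    exact S.irr _ h4
  · exact core S W1 hn htop hM

end wheelend


section wheelgraph

/-- The wheel: hub `none`, rim `some i` for `i` in `ZMod n`. -/
def wheel (n : ℕ) : SimpleGraph (Option (ZMod n)) :=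
  SimpleGraph.fromRel (fun a b => a = none ∨ ∃ i, a = some i ∧ b = some (i + 1))

lemma wheel_spoke (n : ℕ) (i : ZMod n) : (wheel n).Adj none (some i) := by
  rw [wheel, SimpleGraph.fromRel_adj]
  exact ⟨by simp, Or.inl (Or.inl rfl)⟩

lemma wheel_rim (n : ℕ) (hn : 4 ≤ n) (i : ZMod n) : (wheel n).Adj (some i) (some (i + 1)) := by
  rw [wheel, SimpleGraph.fromRel_adj]
  refine ⟨?_, Or.inl (Or.inr ⟨i, rfl, rfl⟩)⟩
  intro h
  have h1 : i = i + 1 := Option.some.inj h
  have h2 : ((1 : ℤ) : ZMod n) = 0 := by
    push_cast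
    exact (left_eq_add.1 h1)
  rw [ZMod.intCast_zmod_eq_zero_iff_dvd] at h2
  exact nd (by omega) (by omega) (by omega) h2

theorem wheel_not_rep (n : ℕ) (hn : 4 ≤ n) : ¬ Representable (wheel n).lineGraph := by
  intro hrep
  obtain ⟨P, S⟩ := sys_of_rep _ hrep
  have ce : ∀ a b : ℤ, (a : ZMod n) = (b : ZMod n) ↔ (n : ℤ) ∣ a - b := by
    intro a b
    rw [ZMod.intCast_eq_intCast_iff_dvd_sub, dvd_sub_comm]
  let sp : ℤ → (wheel n).edgeSet := fun i => ⟨s(none, some (i : ZMod n)), wheel_spoke n _⟩
  let rm : ℤ → (wheel n).edgeSet := fun i =>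
    ⟨s(some (i : ZMod n), some ((i + 1 : ℤ) : ZMod n)), by
      have := wheel_rim n hn (i : ZMod n)
      push_cast
      exact this⟩
  have W : Wheel (n : ℤ) (wheel n).lineGraph.Adj sp rm := by
    refine ⟨?_, ?_, ?_, ?_, ?_, ?_, ?_, ?_⟩
    · intro i j h
      rw [lineGraph_adj_iff_exists]
      refine ⟨?_, none, by simp [sp], by simp [sp]⟩
      intro he
      have h1 := congrArg Subtype.val he
      simp only [sp, Sym2.eq_iff] at h1
      rcases h1 with ⟨_, h1⟩ | ⟨h1, _⟩
      · exact h ((ce i j).1 (Option.some.inj h1))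
      · exact absurd h1 (by simp)
    · intro i j h
      simp only [sp]
      rw [(ce i j).2 h]
    · intro i j
      rw [lineGraph_adj_iff_exists]
      constructor
      · rintro ⟨_, v, h1, h2⟩
        simp only [sp, rm, Sym2.mem_iff] at h1 h2
        rcases h2 with h2 | h2
        · rcases h1 with h1 | h1
          · rw [h2] at h1; exact absurd h1 (by simp)
          · rw [h2] at h1; exact absurd h1 (by simp)
        · rcases h1 with h1 | h1
          · rw [h2] at h1
            left; exact (ce i j).1 (Option.some.inj h1).symm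
          · rw [h2] at h1
            right; exact (ce (i + 1) j).1 (Option.some.inj h1).symm
      · intro h
        refine ⟨?_, some (j : ZMod n), ?_, by simp [sp]⟩
        · intro he
          have h1 := congrArg Subtype.val he
          simp only [sp, rm, Sym2.eq_iff] at h1
          rcases h1 with ⟨h1, _⟩ | ⟨_, h1⟩ <;> exact absurd h1 (by simp)
        · simp only [rm, Sym2.mem_iff]
          rcases h with h | h
          · left; rw [(ce i j).2 h]
          · right; rw [(ce (i + 1) j).2 h]
    · intro i j he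
      have h1 := congrArg Subtype.val he
      simp only [sp, rm, Sym2.eq_iff] at h1
      rcases h1 with ⟨h1, _⟩ | ⟨_, h1⟩ <;> exact absurd h1 (by simp)
    · intro i
      rw [lineGraph_adj_iff_exists]
      refine ⟨?_, some ((i + 1 : ℤ) : ZMod n), by simp [rm], by simp [rm]⟩
      intro he
      have h1 := congrArg Subtype.val he
      simp only [rm, Sym2.eq_iff] at h1
      rcases h1 with ⟨h1, _⟩ | ⟨h1, _⟩
      · exact nd (by omega) (by omega) (by omega) ((ce _ _).1 (Option.some.inj h1))
      · exact nd (by omega) (by omega) (by omega) ((ce _ _).1 (Option.some.inj h1))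
    · intro i j h
      apply Subtype.ext
      have h2 : (n : ℤ) ∣ (i + 1) - (j + 1) := by
        have e : (i + 1) - (j + 1) = i - j := by ring
        rwa [e]
      show s(some (i : ZMod n), some ((i + 1 : ℤ) : ZMod n)) = s(some (j : ZMod n), some ((j + 1 : ℤ) : ZMod n))
      rw [(ce i j).2 h, (ce _ _).2 h2]
    · intro i j h1 h2
      rw [lineGraph_adj_iff_exists]
      rintro ⟨hne, v, h3, h4⟩
      simp only [rm, Sym2.mem_iff] at h3 h4
      have heq : ¬ (n : ℤ) ∣ i - j := by
        intro hd
        apply hne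
        apply Subtype.ext
        have h2 : (n : ℤ) ∣ (i + 1) - (j + 1) := by
          have e : (i + 1) - (j + 1) = i - j := by ring
          rwa [e]
        show s(some (i : ZMod n), some ((i + 1 : ℤ) : ZMod n)) = s(some (j : ZMod n), some ((j + 1 : ℤ) : ZMod n))
        rw [(ce i j).2 hd, (ce _ _).2 h2]
      rcases h3 with h3 | h3 <;> rcases h4 with h4 | h4 <;> rw [h3] at h4 <;>
        have h5 := (ce _ _).1 (Option.some.inj h4)
      · exact heq h5
      · apply h1
        have e : i - j - 1 = i - (j + 1) := by ring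
        rwa [e]
      · apply h2
        have e : i - j + 1 = i + 1 - j := by ring
        rwa [e]
      · apply heq
        have e : i - j = i + 1 - (j + 1) := by ring
        rwa [e]
    · intro i j h he
      have h1 := congrArg Subtype.val he
      simp only [rm, Sym2.eq_iff] at h1
      rcases h1 with ⟨h1, _⟩ | ⟨h1, h2⟩
      · exact h ((ce _ _).1 (Option.some.inj h1))
      · have h3 := (ce _ _).1 (Option.some.inj h1)
        have h4 := (ce _ _).1 (Option.some.inj h2)
        have h5 := dvd_sub h4 h3
        have e : i + 1 - j - (i - (j + 1)) = 2 := by ring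
        rw [e] at h5
        exact nd (by omega) (by omega) (by omega) h5
  exact no_wheel S W (by omega)

end wheelgraph

section circle

open Classical in
/-- Graphs of crossing chords are representable. -/
theorem circle_rep {V : Type*} [Finite V] (G : SimpleGraph V) (a b : V → ℕ)
    (hab : ∀ x, a x < b x) (ha : ∀ x y, x ≠ y → a x ≠ a y) (hb : ∀ x y, x ≠ y → b x ≠ b y)
    (hne : ∀ x y, a x ≠ b y)
    (hadj : ∀ x y, x ≠ y → (G.Adj x y ↔ (a x < a y ∧ a y < b x ∧ b x < b y) ∨
      (a y < a x ∧ a x < b y ∧ b y < b x))) : Representable G := by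
  have := Fintype.ofFinite V
  let pos : V × Bool → ℕ := fun q => if q.2 then b q.1 else a q.1
  have pinj : Function.Injective pos := by
    rintro ⟨x, s⟩ ⟨y, t⟩ h
    by_cases hxy : x = y
    · subst hxy
      cases s <;> cases t
      · rfl
      · exact absurd h (hne x x)
      · exact absurd h.symm (hne x x)
      · rfl
    · cases s <;> cases t
      · exact absurd h (ha x y hxy)
      · exact absurd h (hne x y)
      · exact absurd h.symm (hne y x)
      · exact absurd h (hb x y hxy)
  let l : List (V × Bool) := (Finset.univ : Finset (V × Bool)).toList.insertionSort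
    (fun p q => pos p ≤ pos q)
  have hsort : l.Pairwise (fun p q => pos p ≤ pos q) := by
    have : Std.Total (fun p q : V × Bool => pos p ≤ pos q) := ⟨fun p q => le_total _ _⟩
    have : IsTrans (V × Bool) (fun p q : V × Bool => pos p ≤ pos q) :=
      ⟨fun p q r h1 h2 => le_trans h1 h2⟩
    exact List.pairwise_insertionSort _ _
  have hperm : l.Perm (Finset.univ : Finset (V × Bool)).toList := List.perm_insertionSort _ _
  have hnd : l.Nodup := (hperm.nodup_iff).2 (Finset.nodup_toList _)
  have hmem : ∀ q, q ∈ l := fun q => (hperm.mem_iff).2 (Finset.mem_toList.2 (Finset.mem_univ _))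
  refine ⟨l.map Prod.fst, ?_, ?_⟩
  · intro v
    exact List.mem_map.2 ⟨(v, true), hmem _, rfl⟩
  intro x y hxy
  have key : ∀ L : List (V × Bool), L.Pairwise (fun p q => pos p ≤ pos q) → L.Nodup →
      (∀ q, q ∈ L ↔ (q.1 = x ∨ q.1 = y)) →
      (l.map Prod.fst).filter (fun z => decide (z = x ∨ z = y)) = L.map Prod.fst := by
    intro L h1 h2 h3
    rw [List.filter_map]
    congr 1
    have : Std.Antisymm (fun p q : V × Bool => pos p ≤ pos q) :=
      ⟨fun p q h1 h2 => pinj (le_antisymm h1 h2)⟩
    apply List.Perm.eq_of_pairwise' (r := fun p q => pos p ≤ pos q) _ h1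
    · rw [List.perm_ext_iff_of_nodup (hnd.filter _) h2]
      intro q
      rw [h3 q, List.mem_filter]
      simp [hmem]
    · exact hsort.filter _
  have hmx : x ∈ l.map Prod.fst := List.mem_map.2 ⟨(x, true), hmem _, rfl⟩
  have hmy : y ∈ l.map Prod.fst := List.mem_map.2 ⟨(y, true), hmem _, rfl⟩
  rw [hadj x y hxy]
  unfold Alternate
  have e1 := hab x
  have e2 := hab y
  have e3 := ha x y hxy
  have e4 := hb x y hxy
  have e5 := hne x y
  have e6 := hne y x
  have hyx : y ≠ x := hxy.symm
  have mem4 : ∀ q : V × Bool, (q = (x, false) ∨ q = (x, true) ∨ q = (y, false) ∨ q = (y, true)) ↔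
      (q.1 = x ∨ q.1 = y) := by
    rintro ⟨z, t⟩
    cases t <;> simp [Prod.ext_iff]
  have six : (a x < a y ∧ a y < b x ∧ b x < b y) ∨ (a y < a x ∧ a x < b y ∧ b y < b x) ∨ (b x < a y) ∨ (a x < a y ∧ b y < b x) ∨ (b y < a x) ∨ (a y < a x ∧ b x < b y) := by omega
  rcases six with h | h | h | h | h | h
  · have hL := key [(x, false), (y, false), (x, true), (y, true)] (by simp [pos]; omega) (by simp [hxy, hyx]) (by
      intro q; rw [← mem4 q]; simp only [List.mem_cons, List.not_mem_nil, or_false] <;> tauto)
    rw [hL]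
    refine iff_of_true (by omega) ⟨hmx, hmy, ?_⟩
    simp [hxy, hyx]
  · have hL := key [(y, false), (x, false), (y, true), (x, true)] (by simp [pos]; omega) (by simp [hxy, hyx]) (by
      intro q; rw [← mem4 q]; simp only [List.mem_cons, List.not_mem_nil, or_false] <;> tauto)
    rw [hL]
    refine iff_of_true (by omega) ⟨hmx, hmy, ?_⟩
    simp [hxy, hyx]
  · have hL := key [(x, false), (x, true), (y, false), (y, true)] (by simp [pos]; omega) (by simp [hxy, hyx]) (by
      intro q; rw [← mem4 q]; simp only [List.mem_cons, List.not_mem_nil, or_false] <;> tauto)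
    rw [hL]
    refine iff_of_false (by omega) ?_
    rintro ⟨_, _, hc⟩
    simp at hc
  · have hL := key [(x, false), (y, false), (y, true), (x, true)] (by simp [pos]; omega) (by simp [hxy, hyx]) (by
      intro q; rw [← mem4 q]; simp only [List.mem_cons, List.not_mem_nil, or_false] <;> tauto)
    rw [hL]
    refine iff_of_false (by omega) ?_
    rintro ⟨_, _, hc⟩
    simp at hc
  · have hL := key [(y, false), (y, true), (x, false), (x, true)] (by simp [pos]; omega) (by simp [hxy, hyx]) (by
      intro q; rw [← mem4 q]; simp only [List.mem_cons, List.not_mem_nil, or_false] <;> tauto)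
    rw [hL]
    refine iff_of_false (by omega) ?_
    rintro ⟨_, _, hc⟩
    simp at hc
  · have hL := key [(y, false), (x, false), (x, true), (y, true)] (by simp [pos]; omega) (by simp [hxy, hyx]) (by
      intro q; rw [← mem4 q]; simp only [List.mem_cons, List.not_mem_nil, or_false] <;> tauto)
    rw [hL]
    refine iff_of_false (by omega) ?_
    rintro ⟨_, _, hc⟩
    simp at hc

end circle


section fangraph

/-- The fan: hub `n`, path `0, 1, ..., n - 1`. -/
def fan (n : ℕ) : SimpleGraph (Fin (n + 1)) :=
  SimpleGraph.fromRel (fun a b => (a : ℕ) = n ∨ (a : ℕ) + 1 = b)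

theorem fan_rep (n : ℕ) : Representable (fan n).lineGraph := by
  let lo : (fan n).edgeSet → ℕ := fun e => ((e.1.inf : Fin (n + 1)) : ℕ)
  let hi : (fan n).edgeSet → ℕ := fun e => ((e.1.sup : Fin (n + 1)) : ℕ)
  have base : ∀ e : (fan n).edgeSet, ∃ x y : Fin (n + 1), x < y ∧ e.1 = s(x, y) ∧
      lo e = x ∧ hi e = y ∧ ((y : ℕ) = n ∨ (y : ℕ) = x + 1) := by
    rintro ⟨e, he⟩
    induction e with
    | h x y =>
      have he' : (fan n).Adj x y := he
      rw [fan, SimpleGraph.fromRel_adj] at he'
      obtain ⟨hne, hor⟩ := he'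
      have hxy : (x : ℕ) ≠ y := fun h => hne (Fin.ext h)
      have hx := x.2
      have hy := y.2
      rcases lt_or_gt_of_ne hxy with h | h
      · have hle : x ≤ y := by rw [Fin.le_def]; omega
        refine ⟨x, y, by rw [Fin.lt_def]; exact h, rfl, ?_, ?_, by omega⟩
        · simp [lo, Sym2.inf_mk, inf_eq_left.2 hle]
        · simp [hi, Sym2.sup_mk, sup_eq_right.2 hle]
      · have hle : y ≤ x := by rw [Fin.le_def]; omega
        refine ⟨y, x, by rw [Fin.lt_def]; exact h, Sym2.eq_swap, ?_, ?_, by omega⟩
        · simp [lo, Sym2.inf_mk, inf_eq_right.2 hle]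
        · simp [hi, Sym2.sup_mk, sup_eq_left.2 hle]
  have struct : ∀ e, lo e < hi e ∧ hi e ≤ n ∧ (hi e = n ∨ hi e = lo e + 1) := by
    intro e
    obtain ⟨x, y, h1, h2, h3, h4, h5⟩ := base e
    rw [h3, h4]
    rw [Fin.lt_def] at h1
    have hy := y.2
    omega
  have ext : ∀ e f, lo e = lo f → hi e = hi f → e = f := by
    intro e f h1 h2
    obtain ⟨x, y, a1, a2, a3, a4, a5⟩ := base e
    obtain ⟨u, v, b1, b2, b3, b4, b5⟩ := base f
    apply Subtype.ext
    have e1 : x = u := Fin.ext (by omega)
    have e2 : y = v := Fin.ext (by omega)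
    rw [a2, b2, e1, e2]
  have adj : ∀ e f, e ≠ f → ((fan n).lineGraph.Adj e f ↔
      (lo e = lo f ∨ lo e = hi f ∨ hi e = lo f ∨ hi e = hi f)) := by
    intro e f hef
    rw [lineGraph_adj_iff_exists]
    obtain ⟨x, y, a1, a2, a3, a4, a5⟩ := base e
    obtain ⟨u, v, b1, b2, b3, b4, b5⟩ := base f
    rw [a2, b2, a3, a4, b3, b4]
    constructor
    · rintro ⟨_, z, h1, h2⟩
      simp only [Sym2.mem_iff] at h1 h2
      rcases h1 with h1 | h1 <;> rcases h2 with h2 | h2 <;> rw [h1] at h2 <;> rw [h2] <;> simp
    · intro h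
      refine ⟨hef, ?_⟩
      rcases h with h | h | h | h
      · exact ⟨x, by simp, by rw [Fin.ext h]; simp⟩
      · exact ⟨x, by simp, by rw [Fin.ext h]; simp⟩
      · exact ⟨y, by simp, by rw [Fin.ext h]; simp⟩
      · exact ⟨y, by simp, by rw [Fin.ext h]; simp⟩
  have extn : ∀ e f, e ≠ f → lo e ≠ lo f ∨ hi e ≠ hi f := by
    intro e f hef
    by_contra hc
    push Not at hc
    exact hef (ext e f hc.1 hc.2)
  refine circle_rep _ (fun e => if hi e = n then 3 * lo e + 1 else 3 * lo e)
    (fun e => if hi e = n then 3 * n + 3 + lo e else 3 * lo e + 5) ?_ ?_ ?_ ?_ ?_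
  · intro e
    have := struct e
    split_ifs <;> omega
  · intro e f hef
    have := struct e
    have := struct f
    have := extn e f hef
    split_ifs <;> omega
  · intro e f hef
    have := struct e
    have := struct f
    have := extn e f hef
    split_ifs <;> omega
  · intro e f
    have := struct e
    have := struct f
    split_ifs <;> omega
  · intro e f hef
    have := struct e
    have := struct f
    have := extn e f hef
    rw [adj e f hef]
    split_ifs <;> omega

end fangraph

/-- There is no finite family of forbidden subgraphs characterising the graphs whose line graph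
is word-representable. -/
theorem result : ¬ ∃ S : Set (Σ m : ℕ, SimpleGraph (Fin m)), S.Finite ∧
    ∀ (V : Type) [Finite V] (G : SimpleGraph V),
      Representable G.lineGraph ↔ ∀ H ∈ S, ¬ H.2.IsContained G := by
  rintro ⟨S, hS, h⟩
  obtain ⟨N, hN⟩ := (hS.image Sigma.fst).bddAbove
  obtain ⟨n, hn, hnN⟩ : ∃ n : ℕ, 4 ≤ n ∧ N < n := ⟨N + 4, by omega, by omega⟩
  have : NeZero n := ⟨by omega⟩
  have h1 := (h (Option (ZMod n)) (wheel n)).not.1 (wheel_not_rep n hn)
  push Not at h1
  obtain ⟨H, hH, ⟨f⟩⟩ := h1
  have hfan := (h (Fin (n + 1)) (fan n)).1 (fan_rep n) H hH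
  apply hfan
  have hHN : H.1 ≤ N := hN ⟨H, hH, rfl⟩
  -- a missed rim vertex
  obtain ⟨v, hv⟩ : ∃ v : ZMod n, ∀ x, f x ≠ some v := by
    by_contra hcon
    push Not at hcon
    choose g hg using hcon
    have hinj : Function.Injective g := by
      intro a b hab
      have h2 := hg a
      rw [hab, hg b] at h2
      exact (Option.some.inj h2).symm
    have := Fintype.card_le_of_injective g hinj
    rw [ZMod.card, Fintype.card_fin] at this
    omega
  have hval : ∀ t : ZMod n, t + 1 ≠ 0 → (t + 1).val = t.val + 1 := by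
    intro t ht
    have : Fact (1 < n) := ⟨by omega⟩
    have h3 : (t + 1).val = (t.val + 1) % n := by rw [ZMod.val_add, ZMod.val_one]
    have h4 := ZMod.val_lt t
    rcases Nat.lt_or_ge (t.val + 1) n with h5 | h5
    · rw [h3, Nat.mod_eq_of_lt h5]
    · exfalso
      have h6 : t.val + 1 = n := by omega
      rw [h6, Nat.mod_self] at h3
      exact ht ((ZMod.val_eq_zero _).1 h3)
  let φ : Option (ZMod n) → Fin (n + 1) := fun o =>
    match o with
    | none => Fin.last n
    | some x => ⟨(x - v - 1).val, by have := ZMod.val_lt (x - v - 1); omega⟩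
  have φinj : Function.Injective φ := by
    intro a b hab
    rcases a with _ | a <;> rcases b with _ | b
    · rfl
    · exfalso
      have h3 := congrArg Fin.val hab
      simp only [φ, Fin.val_last] at h3
      have := ZMod.val_lt (b - v - 1)
      omega
    · exfalso
      have h3 := congrArg Fin.val hab
      simp only [φ, Fin.val_last] at h3
      have := ZMod.val_lt (a - v - 1)
      omega
    · have h3 := congrArg Fin.val hab
      simp only [φ] at h3
      have h4 := ZMod.val_injective n h3
      have h5 : a = b := by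
        have := sub_left_injective (sub_left_injective h4)
        exact this
      rw [h5]
  have φrel : ∀ a b, a ≠ some v → (a = none ∨ ∃ i, a = some i ∧ b = some (i + 1)) →
      (φ a : ℕ) = n ∨ (φ a : ℕ) + 1 = φ b := by
    intro a b hav hr
    rcases hr with rfl | ⟨i, rfl, rfl⟩
    · left; simp [φ]
    · right
      simp only [φ]
      have h3 : i - v - 1 + 1 ≠ 0 := by
        rw [sub_add_cancel, sub_ne_zero]
        intro h4; exact hav (by rw [h4])
      rw [← hval _ h3]
      congr 1
      ring
  have φadj : ∀ a b, a ≠ some v → b ≠ some v → (wheel n).Adj a b → (fan n).Adj (φ a) (φ b) := by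
    intro a b ha hb hab
    rw [wheel, SimpleGraph.fromRel_adj] at hab
    rw [fan, SimpleGraph.fromRel_adj]
    refine ⟨fun h => hab.1 (φinj h), ?_⟩
    rcases hab.2 with h2 | h2
    · left; exact φrel a b ha h2
    · right; exact φrel b a hb h2
  exact ⟨⟨⟨fun x => φ (f x), fun {x y} hxy => φadj _ _ (hv x) (hv y) (f.toHom.map_adj hxy)⟩,
    fun x y hxy => f.injective (φinj hxy)⟩⟩

end

end Pool.Agent.Results.MP_c3beeb_co.NoFiniteFamily
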